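import Pool.Agent.Helper66.PD.Stmts

set_option autoImplicit false

namespace Pool.Agent.Helper66.PD

/-- positions of the node `n` in the child of `p` -/
def hieS (c : ℕ → ℕ → ℕ → ℕ) (n : ℕ × ℕ) (p : ℕ) : Set ℕ :=
  {q | n.1 ≤ q ∧ q ≤ n.2 ∧ c n.1 n.2 q = c n.1 n.2 p}

/-- the nodes -/
noncomputable def hieN (c : ℕ → ℕ → ℕ → ℕ) (m : ℕ) : ℕ → ℕ → ℕ × ℕ
  | 0, _ => (0, m - 1)
  | ℓ + 1, p => (sInf (hieS c (hieN c m ℓ p) p), sSup (hieS c (hieN c m ℓ p) p))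

theorem hie_S (c : ℕ → ℕ → ℕ → ℕ) (n : ℕ × ℕ) (p : ℕ) (h1 : n.1 ≤ p) (h2 : p ≤ n.2) :
    sInf (hieS c n p) ∈ hieS c n p ∧ sSup (hieS c n p) ∈ hieS c n p ∧
      sInf (hieS c n p) ≤ p ∧ p ≤ sSup (hieS c n p) := by
  have hp : p ∈ hieS c n p := ⟨h1, h2, rfl⟩
  have hb : BddAbove (hieS c n p) := ⟨n.2, fun q hq => hq.2.1⟩
  exact ⟨Nat.sInf_mem ⟨p, hp⟩, Nat.sSup_mem ⟨p, hp⟩ hb, Nat.sInf_le hp, le_csSup hb hp⟩

theorem hie_inv (c : ℕ → ℕ → ℕ → ℕ) (m : ℕ)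
    (hm : ∀ a b p q, a ≤ b → a ≤ p → p ≤ q → q ≤ b → c a b p ≤ c a b q) :
    ∀ ℓ p, p < m → (hieN c m ℓ p).1 ≤ p ∧ p ≤ (hieN c m ℓ p).2 ∧ (hieN c m ℓ p).2 < m ∧
      ∀ q, (hieN c m ℓ p).1 ≤ q → q ≤ (hieN c m ℓ p).2 → hieN c m ℓ q = hieN c m ℓ p := by
  intro ℓ
  induction ℓ with
  | zero =>
    intro p hp
    refine ⟨Nat.zero_le _, ?_, ?_, fun q _ _ => rfl⟩
    · show p ≤ m - 1; omega
    · show m - 1 < m; omega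
  | succ ℓ ih =>
    intro p hp
    obtain ⟨i1, i2, i3, i4⟩ := ih p hp
    obtain ⟨s1, s2, s3, s4⟩ := hie_S c (hieN c m ℓ p) p i1 i2
    refine ⟨s3, s4, lt_of_le_of_lt s2.2.1 i3, ?_⟩
    intro q h1 h2
    have h1' : sInf (hieS c (hieN c m ℓ p) p) ≤ q := h1
    have h2' : q ≤ sSup (hieS c (hieN c m ℓ p) p) := h2
    have hq1 : (hieN c m ℓ p).1 ≤ q := s1.1.trans h1'
    have hq2 : q ≤ (hieN c m ℓ p).2 := h2'.trans s2.2.1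
    have hn : hieN c m ℓ q = hieN c m ℓ p := i4 q hq1 hq2
    have hab : (hieN c m ℓ p).1 ≤ (hieN c m ℓ p).2 := i1.trans i2
    have hcq : c (hieN c m ℓ p).1 (hieN c m ℓ p).2 q = c (hieN c m ℓ p).1 (hieN c m ℓ p).2 p := by
      apply le_antisymm
      · exact (hm _ _ _ _ hab hq1 h2' s2.2.1).trans s2.2.2.le
      · exact s1.2.2.ge.trans (hm _ _ _ _ hab s1.1 h1' hq2)
    have hS : hieS c (hieN c m ℓ q) q = hieS c (hieN c m ℓ p) p := by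
      rw [hn]
      unfold hieS
      rw [hcq]
    show (sInf (hieS c (hieN c m ℓ q) q), sSup (hieS c (hieN c m ℓ q) q)) =
      (sInf (hieS c (hieN c m ℓ p) p), sSup (hieS c (hieN c m ℓ p) p))
    rw [hS]

theorem st_HIE (h1 : ST_SPL) : ST_HIE := by
  intro P _ m l r
  have hc : ∀ a b : ℕ, ∃ c : ℕ → ℕ, a ≤ b →
      (∀ p q, a ≤ p → p ≤ q → q ≤ b → c p ≤ c q) ∧
      (∀ z p q, ¬ (l z ≤ a ∧ b ≤ r z) → a ≤ p → p ≤ q → q ≤ b → l z ≤ p → q ≤ r z →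
        c q ≤ c p + 1) ∧
      (∀ p, a ≤ p → p ≤ b → (∀ z, l z ≤ p → p ≤ r z → l z ≤ a ∧ b ≤ r z) ∨
        ∃ z, ¬ (l z ≤ a ∧ b ≤ r z) ∧ ∀ q, a ≤ q → q ≤ b → c q = c p → l z ≤ q ∧ q ≤ r z) := by
    intro a b
    by_cases hab : a ≤ b
    · obtain ⟨c, hc⟩ := h1 P l r a b hab
      exact ⟨c, fun _ => hc⟩
    · exact ⟨fun _ => 0, fun h => absurd h hab⟩
  choose c hc using hc
  have hinv := hie_inv c m (fun a b p q hab => (hc a b hab).1 p q)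
  -- equal left ends give equal nodes
  have heq : ∀ ℓ p q, p < m → q < m → (hieN c m ℓ p).1 = (hieN c m ℓ q).1 →
      hieN c m ℓ p = hieN c m ℓ q := by
    intro ℓ p q hp hq hA
    obtain ⟨i1, i2, i3, i4⟩ := hinv ℓ p hp
    obtain ⟨j1, j2, j3, j4⟩ := hinv ℓ q hq
    rw [← i4 (hieN c m ℓ p).1 le_rfl (i1.trans i2), ← j4 (hieN c m ℓ p).1 hA.ge
      (by rw [hA]; exact j1.trans j2)]
  have hnodeS : ∀ ℓ p q, hieN c m ℓ p = hieN c m ℓ q →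
      c (hieN c m ℓ p).1 (hieN c m ℓ p).2 p = c (hieN c m ℓ q).1 (hieN c m ℓ q).2 q →
      hieS c (hieN c m ℓ p) p = hieS c (hieN c m ℓ q) q := by
    intro ℓ p q hn hC
    unfold hieS
    rw [hC, hn]
  refine ⟨fun ℓ p => (hieN c m ℓ p).1, fun ℓ p => (hieN c m ℓ p).2,
    fun ℓ p => c (hieN c m ℓ p).1 (hieN c m ℓ p).2 p, ?_⟩
  refine ⟨?_, ?_, ?_, ?_, ?_, ?_, ?_, ?_, ?_⟩
  · intro p q _ _; rfl
  · intro ℓ p hp
    obtain ⟨i1, i2, i3, -⟩ := hinv ℓ p hp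
    exact ⟨i1, i2, i3⟩
  · intro ℓ p q hp h2 h3
    obtain ⟨-, -, -, i4⟩ := hinv ℓ p hp
    show (hieN c m ℓ q).1 = (hieN c m ℓ p).1
    rw [i4 q h2 h3]
  · intro ℓ p q hp hq hA
    show (hieN c m ℓ p).2 = (hieN c m ℓ q).2
    rw [heq ℓ p q hp hq hA]
  · intro ℓ p hp
    obtain ⟨i1, i2, i3, i4⟩ := hinv ℓ p hp
    obtain ⟨s1, s2, s3, s4⟩ := hie_S c (hieN c m ℓ p) p i1 i2
    exact ⟨s1.1, s2.2.1⟩
  · intro ℓ p q hp hq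
    obtain ⟨i1, i2, i3, i4⟩ := hinv ℓ p hp
    obtain ⟨s1, s2, s3, s4⟩ := hie_S c (hieN c m ℓ p) p i1 i2
    obtain ⟨j1, j2, j3, j4⟩ := hinv ℓ q hq
    obtain ⟨t1, t2, t3, t4⟩ := hie_S c (hieN c m ℓ q) q j1 j2
    constructor
    · intro hA
      have hA' : sInf (hieS c (hieN c m ℓ p) p) = sInf (hieS c (hieN c m ℓ q) q) := hA
      have e1 := i4 _ s1.1 s1.2.1
      have e2 := j4 _ t1.1 t1.2.1
      rw [hA', e2] at e1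
      refine ⟨?_, ?_⟩
      · show (hieN c m ℓ p).1 = (hieN c m ℓ q).1
        rw [e1]
      · show c (hieN c m ℓ p).1 (hieN c m ℓ p).2 p = c (hieN c m ℓ q).1 (hieN c m ℓ q).2 q
        have f1 := s1.2.2
        have f2 := t1.2.2
        rw [hA', ← e1] at f1
        rw [← e1, ← f1, ← f2]
    · rintro ⟨hA, hC⟩
      have hn := heq ℓ p q hp hq hA
      have hS := hnodeS ℓ p q hn hC
      show sInf (hieS c (hieN c m ℓ p) p) = sInf (hieS c (hieN c m ℓ q) q)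
      rw [hS]
  · intro ℓ p q hpq hq hA
    have hp : p < m := lt_of_le_of_lt hpq hq
    have hn := heq ℓ p q hp hq hA
    obtain ⟨i1, i2, i3, i4⟩ := hinv ℓ p hp
    obtain ⟨j1, j2, j3, j4⟩ := hinv ℓ q hq
    show c (hieN c m ℓ p).1 (hieN c m ℓ p).2 p ≤ c (hieN c m ℓ q).1 (hieN c m ℓ q).2 q
    rw [← hn] at j1 j2 ⊢
    exact (hc _ _ (i1.trans i2)).1 p q i1 hpq j2
  · intro ℓ z p q hpq hq hA hz h2 h3
    have hp : p < m := lt_of_le_of_lt hpq hq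
    have hn := heq ℓ p q hp hq hA
    obtain ⟨i1, i2, i3, i4⟩ := hinv ℓ p hp
    obtain ⟨j1, j2, j3, j4⟩ := hinv ℓ q hq
    show c (hieN c m ℓ q).1 (hieN c m ℓ q).2 q ≤ c (hieN c m ℓ p).1 (hieN c m ℓ p).2 p + 1
    rw [← hn] at j1 j2 ⊢
    exact (hc _ _ (i1.trans i2)).2.1 z p q hz i1 hpq j2 h2 h3
  · intro ℓ p hp
    obtain ⟨i1, i2, i3, i4⟩ := hinv ℓ p hp
    obtain ⟨s1, s2, s3, s4⟩ := hie_S c (hieN c m ℓ p) p i1 i2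
    rcases (hc _ _ (i1.trans i2)).2.2 p i1 i2 with h | ⟨z, hz, h⟩
    · exact Or.inl h
    · refine Or.inr ⟨z, hz, ?_, ?_⟩
      · exact (h _ s1.1 s1.2.1 s1.2.2).1
      · exact (h _ s2.1 s2.2.1 s2.2.2).2

end Pool.Agent.Helper66.PD
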